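import Pool.Agent.Y738.PE.Stm

set_option autoImplicit false

/-! J3: factorization of the vector of a tiling at a sub-block containing the box. -/

open scoped BigOperators ComplexConjugate Classical

noncomputable section

namespace Pool.Agent.Y297.PE

open Pool.Agent.Y738.PE

/-! ### labels -/

theorem fwd {N L : ℕ} {α : ZMod L → Lab N} (hα : Cyc α) (x : ZMod L) (k : ℕ)
    (hk : ((α x).2 : ℕ) = k) : ∀ t : ℕ, k + t < N → ((α (x + t)).2 : ℕ) = k + t := by
  intro t
  induction t with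
  | zero => intro _; simpa using hk
  | succ t ih =>
    intro h
    have h1 := ih (by omega)
    have h2 := (hα (x + ((t + 1 : ℕ) : ZMod L))).2
    have h3 : x + ((t + 1 : ℕ) : ZMod L) - 1 = x + t := by push_cast; ring
    rw [h3] at h2
    rcases h2 with h2 | h2
    · rw [h2.2, h1]; ring
    · exfalso
      have := h2.1
      rw [h1] at this
      omega

theorem bwd {N L : ℕ} {α : ZMod L → Lab N} (hα : Cyc α) (x : ZMod L) (k : ℕ)
    (hk : ((α x).2 : ℕ) = k) : ∀ t : ℕ, t ≤ k → ((α (x - t)).2 : ℕ) = k - t := by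
  intro t
  induction t with
  | zero => intro _; simpa using hk
  | succ t ih =>
    intro h
    have h1 := ih (by omega)
    have h2 := (hα (x - (t : ZMod L))).2
    have h3 : x - (t : ZMod L) - 1 = x - ((t + 1 : ℕ) : ZMod L) := by push_cast; ring
    rw [h3] at h2
    rcases h2 with h2 | h2
    · have := h2.2
      omega
    · exfalso
      have := h2.2
      omega

theorem blk_le {m M I t : ℕ} (hI : I < M) (ht : t < m) : m * I + 1 + t ≤ m * M := by
  have h : m * (I + 1) ≤ m * M := Nat.mul_le_mul_left m hI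
  rw [Nat.mul_succ] at h
  omega

theorem corner {m M L : ℕ} {α : ZMod L → Lab (m * M + 1)} (hα : Cyc α)
    (x : ZMod L) (I : ℕ) (hI : I < M) (hx : ((α x).2 : ℕ) = m * I + 1) (t : ℕ) (ht : t < m) :
    ((α (x + t)).2 : ℕ) = m * I + 1 + t := by
  have := blk_le hI ht
  exact fwd hα x _ hx t (by omega)

theorem exI {m M k : ℕ} (hm : 0 < m) (h1 : 1 ≤ k) (h2 : k ≤ m * M) :
    (k - 1) / m < M ∧ k = m * ((k - 1) / m) + 1 + (k - 1) % m := by
  constructor
  · rw [Nat.div_lt_iff_lt_mul hm, Nat.mul_comm]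
    omega
  · have := Nat.div_add_mod (k - 1) m
    omega

theorem mod_eq {m I t : ℕ} (ht : t < m) : (m * I + 1 + t - 1) % m = t := by
  have h : m * I + 1 + t - 1 = m * I + t := by omega
  rw [h, Nat.mul_add_mod, Nat.mod_eq_of_lt ht]

theorem div_eq {m I t : ℕ} (ht : t < m) : (m * I + 1 + t - 1) / m = I := by
  have h : m * I + 1 + t - 1 = m * I + t := by omega
  rw [h, Nat.mul_add_div (by omega), Nat.div_eq_of_lt ht, add_zero]

/-! ### `put` and `box` -/

theorem put_in {d L r : ℕ} (s : Conf d L) (v : Site L) (τ : BConf d r) (w : Site L)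
    (h : (w.1 - v.1).val < r ∧ (w.2 - v.2).val < r) :
    put s v τ w = τ (⟨(w.1 - v.1).val, h.1⟩, ⟨(w.2 - v.2).val, h.2⟩) := by
  unfold put
  rw [dif_pos h]

theorem put_out {d L r : ℕ} (s : Conf d L) (v : Site L) (τ : BConf d r) (w : Site L)
    (h : ¬ ((w.1 - v.1).val < r ∧ (w.2 - v.2).val < r)) :
    put s v τ w = s w := by
  unfold put
  rw [dif_neg h]

theorem val_cast {L m t : ℕ} [NeZero L] (hm : m ≤ L) (ht : t < m) : ((t : ZMod L)).val = t :=
  ZMod.val_cast_of_lt (by omega)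

theorem box_put {d L m : ℕ} [NeZero L] (hm : m ≤ L) (s : Conf d L) (v : Site L) (τ : BConf d m) :
    box m (put s v τ) v = τ := by
  funext q
  unfold box
  have h1 : (v.1 + ((q.1 : ℕ) : ZMod L) - v.1).val = q.1 := by
    rw [add_sub_cancel_left]
    exact val_cast hm q.1.2
  have h2 : (v.2 + ((q.2 : ℕ) : ZMod L) - v.2).val = q.2 := by
    rw [add_sub_cancel_left]
    exact val_cast hm q.2.2
  rw [put_in s v τ _ ⟨by show _ < m; simp only; rw [h1]; exact q.1.2,
    by show _ < m; simp only; rw [h2]; exact q.2.2⟩]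
  congr 1
  ext
  · simpa using h1
  · simpa using h2

theorem put_put_box {d L m : ℕ} [NeZero L] (s : Conf d L) (v : Site L) (τ : BConf d m) :
    put (put s v τ) v (box m s v) = s := by
  funext w
  by_cases h : (w.1 - v.1).val < m ∧ (w.2 - v.2).val < m
  · rw [put_in _ _ _ _ h]
    unfold box
    congr 1
    ext
    · simp
    · simp
  · rw [put_out _ _ _ _ h, put_out _ _ _ _ h]

/-- averaging over the content of a box -/
theorem aver {d L m : ℕ} [NeZero L] (hm : m ≤ L) (c : Site L) (H : BConf d m → ℂ)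
    (g : Conf d L → ℂ) (hg : ∀ (s : Conf d L) (σ : BConf d m), g (put s c σ) = g s) :
    (Fintype.card (BConf d m) : ℂ) * ∑ s : Conf d L, H (box m s c) * g s =
      (∑ σ : BConf d m, H σ) * ∑ s : Conf d L, g s := by
  have h1 : ∑ x : Conf d L × BConf d m, H (box m x.1 c) * g x.1 =
      ∑ x : Conf d L × BConf d m, H x.2 * g x.1 := by
    refine Finset.sum_nbij' (fun x => (put x.1 c x.2, box m x.1 c))
      (fun x => (put x.1 c x.2, box m x.1 c)) ?_ ?_ ?_ ?_ ?_
    · intro x _; exact Finset.mem_univ _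
    · intro x _; exact Finset.mem_univ _
    · intro x _
      simp only
      rw [put_put_box, box_put hm]
    · intro x _
      simp only
      rw [put_put_box, box_put hm]
    · intro x _
      simp only
      rw [hg]
  rw [Fintype.sum_prod_type, Fintype.sum_prod_type] at h1
  simp only [Finset.sum_const, Finset.card_univ, nsmul_eq_mul] at h1
  rw [Finset.mul_sum, h1, Finset.sum_comm, Finset.sum_mul]
  refine Finset.sum_congr rfl fun σ _ => ?_
  rw [Finset.mul_sum]

/-! ### the box at `0` -/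

theorem val1 {L m : ℕ} [NeZero L] (hm : m ≤ L) (x : ZMod L) (p r : ℕ) (hp : p < m)
    (h : p + r ≤ m) : (x.val < r ↔ (p ≤ (x - (0 - (p : ZMod L))).val ∧
      (x - (0 - (p : ZMod L))).val < p + r)) ∧
    (x.val < r → (x - (0 - (p : ZMod L))).val = p + x.val) := by
  have h0 : x - (0 - (p : ZMod L)) = x + p := by ring
  rw [h0]
  have hpv : ((p : ZMod L)).val = p := val_cast hm hp
  have h1 : x.val < r → (x + (p : ZMod L)).val = p + x.val := by
    intro hx
    rw [ZMod.val_add_of_lt (by rw [hpv]; omega), hpv]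
    ring
  refine ⟨⟨fun hx => ?_, fun hx => ?_⟩, h1⟩
  · rw [h1 hx]
    omega
  · have h2 : x = (((x + (p : ZMod L)).val - p : ℕ) : ZMod L) := by
      rw [Nat.cast_sub hx.1, ZMod.natCast_zmod_val]
      ring
    rw [h2, ZMod.val_cast_of_lt (by omega)]
    omega

theorem box0 {d L m r : ℕ} [NeZero L] (s : Conf d L) (p : ℕ × ℕ)
    (h : p.1 + r ≤ m ∧ p.2 + r ≤ m) :
    box r s 0 = subBox (box m s (0 - (p.1 : ZMod L), 0 - (p.2 : ZMod L))) p h := by
  funext q
  unfold subBox box
  congr 1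
  ext
  · simp
  · simp

theorem put0 {d L m r : ℕ} [NeZero L] (hm : m ≤ L) (s : Conf d L) (p : ℕ × ℕ)
    (hp : p.1 < m ∧ p.2 < m) (h : p.1 + r ≤ m ∧ p.2 + r ≤ m) (τ : BConf d r) :
    put s 0 τ = put s (0 - (p.1 : ZMod L), 0 - (p.2 : ZMod L))
      (subPut (box m s (0 - (p.1 : ZMod L), 0 - (p.2 : ZMod L))) p τ) := by
  funext w
  obtain ⟨a1, b1⟩ := val1 hm w.1 p.1 r hp.1 h.1
  obtain ⟨a2, b2⟩ := val1 hm w.2 p.2 r hp.2 h.2
  by_cases hw : w.1.val < r ∧ w.2.val < r
  · have e1 := b1 hw.1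
    have e2 := b2 hw.2
    have hw' : (w.1 - (0 : Site L).1).val < r ∧ (w.2 - (0 : Site L).2).val < r := by
      simpa using hw
    rw [put_in s 0 τ w hw']
    rw [put_in s _ _ w ⟨by
      show (w.1 - (0 - (p.1 : ZMod L))).val < m
      omega, by
      show (w.2 - (0 - (p.2 : ZMod L))).val < m
      omega⟩]
    unfold subPut
    rw [dif_pos ⟨a1.mp hw.1, a2.mp hw.2⟩]
    congr 1
    ext
    · simp only [Prod.fst_zero, sub_zero]
      omega
    · simp only [Prod.snd_zero, sub_zero]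
      omega
  · have hw' : ¬ ((w.1 - (0 : Site L).1).val < r ∧ (w.2 - (0 : Site L).2).val < r) := by
      simpa using hw
    rw [put_out s 0 τ w hw']
    by_cases hv : (w.1 - (0 - (p.1 : ZMod L))).val < m ∧ (w.2 - (0 - (p.2 : ZMod L))).val < m
    · rw [put_in s _ _ w hv]
      unfold subPut
      rw [dif_neg (fun hh => hw ⟨a1.mpr hh.1, a2.mpr hh.2⟩)]
      unfold box
      congr 1
      ext
      · simp
      · simp
    · rw [put_out s _ _ w hv]

/-! ### the factorization -/

/-- the product of the other factors -/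
def GG {d L : ℕ} [NeZero L] (m M : ℕ) (Φ : BConf d m → ℂ) (θ : Til (m * M + 1) L) (c : Site L)
    (s : Conf d L) : ℂ :=
  ∏ v ∈ (Finset.univ : Finset (Site L)).erase c, fac m M Φ (θ.1 v.1) (θ.2 v.2) s v

theorem blk_pos {m M I J t u : ℕ} (hI : I < M) (hJ : J < M) (hIJ : I ≠ J) (ht : t < m) (hu : u < m) :
    Blk m M (m * I + 1 + t) (m * J + 1 + u) := by
  have h1 := blk_le hI ht
  have h2 := blk_le hJ hu
  refine ⟨by omega, h1, by omega, h2, ?_⟩
  rw [div_eq ht, div_eq hu]
  exact hIJ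

theorem GG_put {d L m M : ℕ} [NeZero L] (hm : 0 < m) (hmL : m ≤ L) (Φ : BConf d m → ℂ)
    (θ : Til (m * M + 1) L) (hθ : Valid θ) (c : Site L) (I J : ℕ) (hI : I < M) (hJ : J < M)
    (hIJ : I ≠ J) (h1 : ((θ.1 c.1).2 : ℕ) = m * I + 1) (h2 : ((θ.2 c.2).2 : ℕ) = m * J + 1)
    (s : Conf d L) (σ : BConf d m) : GG m M Φ θ c (put s c σ) = GG m M Φ θ c s := by
  have hin : ∀ w : Site L, (w.1 - c.1).val < m ∧ (w.2 - c.2).val < m →
      ((θ.1 w.1).2 : ℕ) = m * I + 1 + (w.1 - c.1).val ∧
      ((θ.2 w.2).2 : ℕ) = m * J + 1 + (w.2 - c.2).val := by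
    intro w hw
    constructor
    · have := corner hθ.1 c.1 I hI h1 (w.1 - c.1).val hw.1
      rw [ZMod.natCast_zmod_val, add_sub_cancel] at this
      exact this
    · have := corner hθ.2 c.2 J hJ h2 (w.2 - c.2).val hw.2
      rw [ZMod.natCast_zmod_val, add_sub_cancel] at this
      exact this
  unfold GG
  refine Finset.prod_congr rfl fun v hv => ?_
  have hvc : v ≠ c := (Finset.mem_erase.mp hv).1
  by_cases hf : ((θ.1 v.1).2 : ℕ) = 0 ∨ ((θ.2 v.2).2 : ℕ) = 0
  · have hout : ¬ ((v.1 - c.1).val < m ∧ (v.2 - c.2).val < m) := by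
      intro hw
      have := hin v hw
      omega
    unfold fac
    rw [if_pos hf, if_pos hf, put_out _ _ _ _ hout]
  · by_cases hb : Blk m M (θ.1 v.1).2 (θ.2 v.2).2
    · unfold fac
      rw [if_neg hf, if_neg hf, if_pos hb, if_pos hb]
      by_cases hc : (((θ.1 v.1).2 : ℕ) - 1) % m = 0 ∧ (((θ.2 v.2).2 : ℕ) - 1) % m = 0
      · rw [if_pos hc, if_pos hc]
        congr 1
        funext q
        unfold box
        refine put_out _ _ _ _ ?_
        intro hw
        have h3 := hin _ hw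
        obtain ⟨b1, b2, b3, b4, -⟩ := hb
        obtain ⟨e1, e2⟩ := exI hm b1 b2
        obtain ⟨e3, e4⟩ := exI hm b3 b4
        rw [hc.1] at e2
        rw [hc.2] at e4
        have k1 := corner hθ.1 v.1 _ e1 e2 q.1 q.1.2
        have k2 := corner hθ.2 v.2 _ e3 e4 q.2 q.2.2
        simp only at h3 hw
        rw [k1, k2] at h3
        have m1 : (q.1 : ℕ) = (v.1 + ((q.1 : ℕ) : ZMod L) - c.1).val := by
          have := congrArg (fun x => (x - 1) % m) h3.1
          beta_reduce at this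
          rw [mod_eq q.1.2, mod_eq hw.1] at this
          exact this
        have m2 : (q.2 : ℕ) = (v.2 + ((q.2 : ℕ) : ZMod L) - c.2).val := by
          have := congrArg (fun x => (x - 1) % m) h3.2
          beta_reduce at this
          rw [mod_eq q.2.2, mod_eq hw.2] at this
          exact this
        apply hvc
        have n1 := congrArg (fun x : ℕ => (x : ZMod L)) m1
        have n2 := congrArg (fun x : ℕ => (x : ZMod L)) m2
        simp only [ZMod.natCast_val, ZMod.cast_id', id_eq] at n1 n2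
        ext1
        · linear_combination -n1
        · linear_combination -n2
      · rw [if_neg hc, if_neg hc]
    · have hout : ¬ ((v.1 - c.1).val < m ∧ (v.2 - c.2).val < m) := by
        intro hw
        have h3 := hin v hw
        apply hb
        rw [h3.1, h3.2]
        exact blk_pos hI hJ hIJ hw.1 hw.2
      unfold fac
      rw [if_neg hf, if_neg hf, if_neg hb, if_neg hb, put_out _ _ _ _ hout]

theorem glob_eq {d L m M : ℕ} [NeZero L] (Φ : BConf d m → ℂ)
    (θ : Til (m * M + 1) L) (c : Site L) (I J : ℕ) (hI : I < M) (hJ : J < M) (hm : 0 < m)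
    (hIJ : I ≠ J) (h1 : ((θ.1 c.1).2 : ℕ) = m * I + 1) (h2 : ((θ.2 c.2).2 : ℕ) = m * J + 1)
    (s : Conf d L) : glob m M Φ θ s = Φ (box m s c) * GG m M Φ θ c s := by
  unfold glob GG
  rw [← Finset.mul_prod_erase Finset.univ _ (Finset.mem_univ c)]
  congr 1
  unfold fac
  have hb : Blk m M (θ.1 c.1).2 (θ.2 c.2).2 := by
    rw [h1, h2]
    exact blk_pos (t := 0) (u := 0) hI hJ hIJ hm hm
  rw [if_neg (by omega), if_pos hb, if_pos]
  rw [h1, h2]
  exact ⟨mod_eq (t := 0) hm, mod_eq (t := 0) hm⟩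

theorem factor : Pool.Agent.Y738.PE.StmFactor := by
  intro d m M L r _ hm hmL Φ hΦ θ hθ hblk h B
  obtain ⟨b1, b2, b3, b4, b5⟩ := hblk
  obtain ⟨e1, e2⟩ := exI hm b1 b2
  obtain ⟨e3, e4⟩ := exI hm b3 b4
  set I := (((θ.1 0).2 : ℕ) - 1) / m with hI
  set J := (((θ.2 0).2 : ℕ) - 1) / m with hJ
  set p : ℕ × ℕ := ((((θ.1 0).2 : ℕ) - 1) % m, (((θ.2 0).2 : ℕ) - 1) % m) with hp
  have hpm : p.1 < m ∧ p.2 < m := ⟨Nat.mod_lt _ hm, Nat.mod_lt _ hm⟩
  have hpr : p.1 + r ≤ m ∧ p.2 + r ≤ m := h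
  have e2' : ((θ.1 0).2 : ℕ) = m * I + 1 + p.1 := e2
  have e4' : ((θ.2 0).2 : ℕ) = m * J + 1 + p.2 := e4
  set c : Site L := (0 - (p.1 : ZMod L), 0 - (p.2 : ZMod L)) with hc
  have c1 : ((θ.1 c.1).2 : ℕ) = m * I + 1 := by
    have := bwd hθ.1 0 _ rfl p.1 (by omega)
    rw [hc]
    simp only
    omega
  have c2 : ((θ.2 c.2).2 : ℕ) = m * J + 1 := by
    have := bwd hθ.2 0 _ rfl p.2 (by omega)
    rw [hc]
    simp only
    omega
  have hglob := fun s : Conf d L => glob_eq Φ θ c I J e1 e3 hm b5 c1 c2 s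
  have hG := fun (s : Conf d L) (σ : BConf d m) =>
    GG_put hm hmL Φ θ hθ c I J e1 e3 b5 c1 c2 s σ
  set G := GG m M Φ θ c with hGdef
  set g : Conf d L → ℂ := fun s => conj (G s) * G s with hg
  have hgp : ∀ (s : Conf d L) (σ : BConf d m), g (put s c σ) = g s := by
    intro s σ
    rw [hg]
    simp only
    rw [hG]
  have hex : expec (glob m M Φ θ) 0 B = ∑ s : Conf d L,
      (fun σ : BConf d m => ∑ τ : BConf d r,
        conj (Φ σ) * B (subBox σ p hpr) τ * Φ (subPut σ p τ)) (box m s c) * g s := by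
    unfold expec
    refine Finset.sum_congr rfl fun s _ => ?_
    simp only
    rw [Finset.sum_mul]
    refine Finset.sum_congr rfl fun τ _ => ?_
    rw [hglob, hglob, put0 hmL s p hpm hpr τ, hG, box_put hmL, box0 s p hpr, map_mul]
    rw [hg]
    simp only
    ring
  have hn : (nrm (glob m M Φ θ) : ℂ) = ∑ s : Conf d L,
      (fun σ : BConf d m => conj (Φ σ) * Φ σ) (box m s c) * g s := by
    unfold nrm
    push_cast
    refine Finset.sum_congr rfl fun s _ => ?_
    rw [← Complex.conj_mul', hglob, map_mul]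
    rw [hg]
    simp only
    ring
  have hn1 : (∑ σ : BConf d m, conj (Φ σ) * Φ σ) = 1 := by
    have := congrArg (fun x : ℝ => (x : ℂ)) hΦ
    simp only [nrm] at this
    push_cast at this
    rw [← this]
    refine Finset.sum_congr rfl fun σ _ => ?_
    rw [← Complex.conj_mul']
  have hK : (Fintype.card (BConf d m) : ℂ) ≠ 0 := by
    intro h0
    have h0' : Fintype.card (BConf d m) = 0 := by exact_mod_cast h0
    have := Fintype.card_eq_zero_iff.mp h0'
    unfold nrm at hΦ
    rw [Finset.sum_of_isEmpty] at hΦ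
    exact zero_ne_one hΦ
  have A1 := aver hmL c (fun σ : BConf d m => ∑ τ : BConf d r,
        conj (Φ σ) * B (subBox σ p hpr) τ * Φ (subPut σ p τ)) g hgp
  have A2 := aver hmL c (fun σ : BConf d m => conj (Φ σ) * Φ σ) g hgp
  rw [← hex] at A1
  rw [← hn, hn1, one_mul] at A2
  rw [← A2] at A1
  have A3 : (Fintype.card (BConf d m) : ℂ) * expec (glob m M Φ θ) 0 B =
      (Fintype.card (BConf d m) : ℂ) * (expecBlock Φ p hpr B * (nrm (glob m M Φ θ) : ℂ)) := by
    rw [A1]
    unfold expecBlock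
    ring
  exact mul_left_cancel₀ hK A3

end Pool.Agent.Y297.PE
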